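import Pool.Agent.H66.ER2.Lib

/-!
# MP_816b90_co, row AS4: a consecutive pair away from `a2` and `a3`
-/

set_option autoImplicit false

namespace Pool.Agent.H75.ER2

open Pool.Agent.H48.ER Pool.Agent.H52.ER2 Pool.Agent.H66.ER2

namespace AS4

variable {V : Type} {G : SimpleGraph V}

/-- two of three indices -/
lemma two_of {i j k t : Fin 3} (h1 : i ≠ j) (h2 : i ≠ k) (h3 : j ≠ k) (ht : t ≠ k) :
    t = i ∨ t = j := by
  have a1 := i.2
  have a2 := j.2
  have a3 := k.2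
  have a4 := t.2
  have b1 : (i : ℕ) ≠ j := fun e => h1 (Fin.ext e)
  have b2 : (i : ℕ) ≠ k := fun e => h2 (Fin.ext e)
  have b3 : (j : ℕ) ≠ k := fun e => h3 (Fin.ext e)
  have b4 : (t : ℕ) ≠ k := fun e => ht (Fin.ext e)
  have : (t : ℕ) = i ∨ (t : ℕ) = j := by omega
  rcases this with e | e
  · exact Or.inl (Fin.ext e)
  · exact Or.inr (Fin.ext e)

/-- the rung of index `t` is seen in its first two vertices -/
def Sn (G : SimpleGraph V) (v : V) (a b : V) (n : ℕ) (P : Set V) : Prop :=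
  G.Adj v a ∧ ∃ (c : V) (S : Set V), G.Adj a c ∧ IP G (n - 1) c b S ∧ P = insert a S ∧ a ∉ S ∧
    2 ≤ n ∧ ∀ w ∈ S, G.Adj v w ↔ w = c

/-- the conclusion of VPR in symmetric form -/
lemma vpr (hVPR : T_VPR) {a b : Fin 3 → V} {n : Fin 3 → ℕ} {P : Fin 3 → Set V} {v : V}
    (hG : NOH G) (hc : NCo G v) (hP : Prism G a b n P) (hv : v ∉ ver P)
    (hb : ∀ i, ¬ G.Adj v (b i)) (ha : ∃ i j, i ≠ j ∧ G.Adj v (a i) ∧ G.Adj v (a j))
    (hw : ∃ w ∈ ver P, G.Adj v w ∧ ∀ i, w ≠ a i) :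
    ∃ k, (∀ w ∈ P k, ¬ G.Adj v w) ∧ ∀ t, t ≠ k → Sn G v (a t) (b t) (n t) (P t) := by
  obtain ⟨i, j, k, ci, cj, S, T, h1, h2, h3, h4, h5, h6, h7, h8, h9, h10, h11, h12, h13, h14, h15,
    h16, h17, h18⟩ := hVPR V G a b n P v hG hc hP hv hb ha hw
  refine ⟨k, h4, fun t ht => ?_⟩
  rcases two_of h1 h2 h3 ht with rfl | rfl
  · exact ⟨h5, ci, S, h7, h9, h10, h11, h12, h17⟩
  · exact ⟨h6, cj, T, h8, h13, h14, h15, h16, h18⟩

variable {l n m i j : ℕ} {a1 c a2 b2 a3 b3 v g g' : V} {D P Q R1 R2 : Set V}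

/-- the prism -/
lemma prism (hA : ACx G l n m a1 c a2 b2 a3 b3 D P Q)
    (hH : HTwo G n m i j c a2 b2 a3 b3 g g' R1 R2 P Q) (hg : g ≠ a2) (hg' : g' ≠ a3) :
    Prism G ![a1, a2, a3] ![c, g, g'] ![l, i, j] ![D, R1, R2] := by
  have hi : 1 ≤ i := by
    rcases Nat.eq_zero_or_pos i with h | h
    · subst h
      exact absurd hH.ip1.eq_of_zero.1.symm hg
    · exact h
  have hj : 1 ≤ j := by
    rcases Nat.eq_zero_or_pos j with h | h
    · subst h
      exact absurd hH.ip2.eq_of_zero.1.symm hg'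
    · exact h
  have s1 : R1 ⊆ P ∪ Q := fun w hw => hH.un ▸ Or.inl hw
  have s2 : R2 ⊆ P ∪ Q := fun w hw => hH.un ▸ Or.inr hw
  have ne : ∀ {u w : V}, u ∈ R1 → w ∈ R2 → u ≠ w := fun hu hw e =>
    Set.disjoint_left.1 hH.dis hu (e ▸ hw)
  have d1 : Disjoint D R1 := hA.dis.mono_right s1
  have d2 : Disjoint D R2 := hA.dis.mono_right s2
  refine mk3 hA.ipD hH.ip1 hH.ip2 hA.hl hi hj d1 d2 hH.dis ?_ ?_ hH.adj
  · intro u hu w hw
    constructor
    · intro e
      by_cases huc : u = c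
      · subst huc
        rcases (hH.nb w (s1 hw)).1 e with h | h
        · exact Or.inr ⟨rfl, h⟩
        · exact absurd h (ne hw hH.ip2.right_mem)
      · obtain ⟨h1, h2 | h2⟩ := hA.on u hu huc w (s1 hw) e
        · exact Or.inl ⟨h1, h2⟩
        · exact absurd h2 (ne hw hH.ip2.left_mem)
    · rintro (⟨rfl, rfl⟩ | ⟨rfl, rfl⟩)
      · exact hA.a12
      · exact (hH.nb _ (s1 hw)).2 (Or.inl rfl)
  · intro u hu w hw
    constructor
    · intro e
      by_cases huc : u = c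
      · subst huc
        rcases (hH.nb w (s2 hw)).1 e with h | h
        · exact absurd h.symm (ne hH.ip1.right_mem hw)
        · exact Or.inr ⟨rfl, h⟩
      · obtain ⟨h1, h2 | h2⟩ := hA.on u hu huc w (s2 hw) e
        · exact absurd h2.symm (ne hH.ip1.left_mem hw)
        · exact Or.inl ⟨h1, h2⟩
    · rintro (⟨rfl, rfl⟩ | ⟨rfl, rfl⟩)
      · exact hA.a13
      · exact (hH.nb _ (s2 hw)).2 (Or.inr rfl)

/-- the pair is on `P` -/
lemma core (hEVN : T_EVN) (hVPR : T_VPR) (hG : NOH G) (hN : NOP G)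
    (hA : ACx G l n m a1 c a2 b2 a3 b3 D P Q) (hV : VCx G v a1 c a2 b2 a3 b3 D P Q)
    (hH : HTwo G n m i j c a2 b2 a3 b3 g g' R1 R2 P Q) (hg : g ≠ a2) (hg' : g' ≠ a3)
    {k : ℕ} {S : Set V} (hS : IP G k g' b2 S) (hP : R1 ∪ S = P) (hdS : Disjoint R1 S)
    (hR2 : R2 = Q ∪ S) (hn : i + k + 1 = n) (hj : j = m + k + 1) : False := by
  have hpr := prism hA hH hg hg'
  have hev := (hEVN V G _ _ _ _ hG hpr).2 hN
  have evl : Even l := hev 0
  have evj : Even j := hev 2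
  have s1 : R1 ⊆ P ∪ Q := fun w hw => hH.un ▸ Or.inl hw
  have s2 : R2 ⊆ P ∪ Q := fun w hw => hH.un ▸ Or.inr hw
  have hSP : S ⊆ P := fun w hw => hP ▸ Or.inr hw
  have hSR : S ⊆ R2 := fun w hw => hR2 ▸ Or.inr hw
  have hQR : Q ⊆ R2 := fun w hw => hR2 ▸ Or.inl hw
  have hR1P : R1 ⊆ P := fun w hw => hP ▸ Or.inl hw
  have gPQ : g ∈ P ∪ Q := s1 hH.ip1.right_mem
  have g'PQ : g' ∈ P ∪ Q := s2 hH.ip2.right_mem
  have cg : G.Adj c g := (hH.nb _ gPQ).2 (Or.inl rfl)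
  have cg' : G.Adj c g' := (hH.nb _ g'PQ).2 (Or.inr rfl)
  have vg : ¬ G.Adj v g := fun h => hV.nc g (Or.inr gPQ) h cg
  have vg' : ¬ G.Adj v g' := fun h => hV.nc g' (Or.inr g'PQ) h cg'
  have nePQ : ∀ {u w : V}, u ∈ P → w ∈ Q → u ≠ w := fun hu hw e =>
    Set.disjoint_left.1 hA.cy.dis hu (e ▸ hw)
  have neD : ∀ {u w : V}, u ∈ D → w ∈ P ∪ Q → u ≠ w := fun hu hw e =>
    Set.disjoint_left.1 hA.dis hu (e ▸ hw)
  have a2P := hA.cy.ipP.left_mem
  have b2P := hA.cy.ipP.right_mem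
  have a3Q := hA.cy.ipQ.left_mem
  have b3Q := hA.cy.ipQ.right_mem
  have a1D := hA.ipD.left_mem
  have cD := hA.ipD.right_mem
  have b2S := hS.right_mem
  have ab2 : a2 ≠ b2 := hA.cy.ipP.ne hA.cy.hn.pos
  have ab3 : a3 ≠ b3 := hA.cy.ipQ.ne hA.cy.hm.pos
  have hver : v ∉ ver (![D, R1, R2] : Fin 3 → Set V) := by
    rintro ⟨t, ht⟩
    fin_cases t
    · exact hV.nD ht
    · exact hV.nH (s1 ht)
    · exact hV.nH (s2 ht)
  have hb : ∀ t, ¬ G.Adj v ((![c, g, g'] : Fin 3 → V) t) := by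
    intro t
    fin_cases t
    · exact hV.vc
    · exact vg
    · exact vg'
  have ha : ∃ s t, s ≠ t ∧ G.Adj v ((![a1, a2, a3] : Fin 3 → V) s) ∧
      G.Adj v ((![a1, a2, a3] : Fin 3 → V) t) := by
    rcases hV.ta with ⟨h1, h2⟩ | ⟨h1, h2⟩ | ⟨h1, h2⟩
    · exact ⟨0, 1, by decide, h1, h2⟩
    · exact ⟨0, 2, by decide, h1, h2⟩
    · exact ⟨1, 2, by decide, h1, h2⟩
  have hw : ∃ w ∈ ver (![D, R1, R2] : Fin 3 → Set V), G.Adj v w ∧
      ∀ t, w ≠ (![a1, a2, a3] : Fin 3 → V) t := by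
    rcases hV.tb with h | h
    · refine ⟨b2, ⟨2, hSR b2S⟩, h, fun t => ?_⟩
      fin_cases t
      · exact (neD a1D (Or.inl b2P)).symm
      · exact ab2.symm
      · exact nePQ b2P a3Q
    · refine ⟨b3, ⟨2, hQR b3Q⟩, h, fun t => ?_⟩
      fin_cases t
      · exact (neD a1D (Or.inr b3Q)).symm
      · exact (nePQ a2P b3Q).symm
      · exact ab3.symm
  obtain ⟨q, hq1, hq2⟩ := vpr hVPR hG hV.nco hpr hver hb ha hw
  -- the rung `R2` is seen
  have hq : q ≠ 2 := by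
    rintro rfl
    rcases hV.tb with h | h
    · exact hq1 b2 (hSR b2S) h
    · exact hq1 b3 (hQR b3Q) h
  have hsee : Sn G v a3 g' j R2 := hq2 2 hq.symm
  obtain ⟨va3, c2, S2, h1, h2, h3, h4, h5, h6⟩ := hsee
  have hb2a3 : ¬ G.Adj b2 a3 := by
    rw [hA.cy.adj b2 b2P a3 a3Q]
    rintro (⟨e, _⟩ | ⟨_, e⟩)
    · exact ab2 e.symm
    · exact ab3 e
  have onR2 : ∀ w ∈ R2, w ≠ a3 → G.Adj v w → w = c2 := by
    intro w hw hne e
    rw [h3] at hw
    rcases hw with hw | hw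
    · exact absurd hw hne
    · exact (h6 w hw).1 e
  have hb2c : b2 ≠ c2 := by
    rintro rfl
    exact hb2a3 h1.symm
  have vb2 : ¬ G.Adj v b2 := fun h => hb2c (onR2 b2 (hSR b2S) (nePQ b2P a3Q) h)
  have vb3 : G.Adj v b3 := hV.tb.resolve_left vb2
  have hb3c : b3 = c2 := onR2 b3 (hQR b3Q) ab3.symm vb3
  have vS : ∀ w ∈ S, ¬ G.Adj v w := by
    intro w hw e
    have := onR2 w (hSR hw) (nePQ (hSP hw) a3Q) e
    rw [← hb3c] at this
    exact nePQ (hSP hw) b3Q this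
  have hm : m = 1 := by
    rw [← hA.cy.ipQ.adj_iff, hb3c]
    exact h1
  -- the neighbours of `b3` on `P`
  have b3P : ∀ w ∈ P, G.Adj b3 w ↔ w = b2 := by
    intro w hw
    rw [SimpleGraph.adj_comm, hA.cy.adj w hw b3 b3Q]
    constructor
    · rintro (⟨_, e⟩ | ⟨e, _⟩)
      · exact absurd e.symm ab3
      · exact e
    · intro e
      exact Or.inr ⟨e, rfl⟩
  have q01 : q = 0 ∨ q = 1 := by
    fin_cases q
    · exact Or.inl rfl
    · exact Or.inr rfl
    · exact absurd rfl hq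
  rcases q01 with rfl | rfl
  · -- `D` is not seen
    have hs1 : Sn G v a2 g i R1 := hq2 1 (by decide)
    obtain ⟨va2, c1, S1, u1, u2, u3, u4, u5, u6⟩ := hs1
    have c1S1 : c1 ∈ S1 := u2.left_mem
    have hc1R : c1 ∈ R1 := u3 ▸ Set.mem_insert_of_mem _ c1S1
    have hipP := hA.cy.ipP
    obtain ⟨n', hn'⟩ : ∃ n', n = n' + 1 := ⟨n - 1, by omega⟩
    rw [hn'] at hipP
    obtain ⟨x', x1, x2, x3, x4⟩ := hipP.tail
    have hx : c1 = x' := x4 c1 (hR1P hc1R) u1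
    subst hx
    have hp1 : IP G (n' + 1) c1 b3 (insert b3 (P \ {a2})) := by
      refine x3.snoc (fun h => nePQ h.1 b3Q rfl) fun w hw => b3P w hw.1
    have hpar := hG (n' + 1) c1 b3 v _ hp1 (by omega) ?_ ((u6 c1 c1S1).2 rfl) vb3 ?_
    · rw [← hn'] at hpar
      exact (Nat.not_even_iff_odd.2 hA.cy.hn) hpar
    · intro hv
      rcases hv with hv | hv
      · exact hV.nH (hv ▸ Or.inr b3Q)
      · exact hV.nH (Or.inl hv.1)
    · intro w hw e
      rcases hw with hw | ⟨hw, hwa⟩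
      · exact Or.inr hw
      · left
        rw [← hP] at hw
        rcases hw with hw | hw
        · rw [u3] at hw
          rcases hw with hw | hw
          · exact absurd hw hwa
          · exact (u6 w hw).1 e
        · exact absurd e (vS w hw)
  · -- `R1` is not seen
    have hs0 : Sn G v a1 c l D := hq2 0 (by decide)
    obtain ⟨va1, c0, S0, u1, u2, u3, u4, u5, u6⟩ := hs0
    have hS0D : S0 ⊆ D := fun w hw => u3 ▸ Set.mem_insert_of_mem _ hw
    have hnoc : ∀ w ∈ S0, w ≠ c → ∀ t ∈ P ∪ Q, ¬ G.Adj w t := by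
      intro w hw hwc t ht e
      have h := (hA.on w (hS0D hw) hwc t ht e).1
      exact u4 (h ▸ hw)
    have hd : Disjoint S0 S := by
      rw [Set.disjoint_left]
      intro w hw1 hw2
      exact neD (hS0D hw1) (Or.inl (hSP hw2)) rfl
    have hx : XE G S0 S c g' := by
      intro w hw t ht
      constructor
      · intro e
        by_cases hwc : w = c
        · subst hwc
          refine ⟨rfl, ?_⟩
          rcases (hH.nb t (Or.inl (hSP ht))).1 e with h | h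
          · exact absurd ht (Set.disjoint_left.1 hdS (h ▸ hH.ip1.right_mem))
          · exact h
        · exact absurd e (hnoc w hw hwc t (Or.inl (hSP ht)))
      · rintro ⟨rfl, rfl⟩
        exact cg'
    have hp1 := u2.append hS hd hx
    have hp2 : IP G (l - 1 + k + 1 + 1) c0 b3 (insert b3 (S0 ∪ S)) := by
      refine hp1.snoc ?_ ?_
      · rintro (h | h)
        · exact neD (hS0D h) (Or.inr b3Q) rfl
        · exact nePQ (hSP h) b3Q rfl
      · rintro w (hw | hw)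
        · constructor
          · intro e
            exfalso
            by_cases hwc : w = c
            · subst hwc
              rcases (hH.nb b3 (Or.inr b3Q)).1 e.symm with h | h
              · exact nePQ (hR1P hH.ip1.right_mem) b3Q h.symm
              · exact nePQ (hSP hS.left_mem) b3Q h.symm
            · exact hnoc w hw hwc b3 (Or.inr b3Q) e.symm
          · intro e
            exact absurd e (neD (hS0D hw) (Or.inl b2P))
        · exact b3P w (hSP hw)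
    have hpar := hG _ c0 b3 v _ hp2 (by omega) ?_ ((u6 c0 u2.left_mem).2 rfl) vb3 ?_
    · obtain ⟨e1, he1⟩ := evl
      obtain ⟨e2, he2⟩ := evj
      obtain ⟨e3, he3⟩ := hpar
      omega
    · rintro (h | h | h)
      · exact hV.nH (h ▸ Or.inr b3Q)
      · exact hV.nD (hS0D h)
      · exact hV.nH (Or.inl (hSP h))
    · rintro w (hw | hw | hw) e
      · exact Or.inr hw
      · exact Or.inl ((u6 w hw).1 e)
      · exact absurd e (vS w hw)

end AS4

open AS4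

theorem pf_AS4 (hEVN : T_EVN) (hVPR : T_VPR) : T_AS4 := by
  intro V G l n m i j a1 c a2 b2 a3 b3 v g g' D P Q R1 R2 hG hN hA hV hH hg hg'
  rcases hH.pos with ⟨h1, h2, h3, h4⟩ | ⟨k, S, h1, h2, h3, h4, h5, h6⟩ |
    ⟨k, S, h1, h2, h3, h4, h5, h6⟩
  · have s1 : g ∈ P ∪ Q := hH.un ▸ Or.inl hH.ip1.right_mem
    have s2 : g' ∈ P ∪ Q := hH.un ▸ Or.inr hH.ip2.right_mem
    rcases hV.tb with h | h
    · rw [← h3] at h
      exact hV.nc g (Or.inr s1) h ((hH.nb g s1).2 (Or.inl rfl))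
    · rw [← h4] at h
      exact hV.nc g' (Or.inr s2) h ((hH.nb g' s2).2 (Or.inr rfl))
  · exact core hEVN hVPR hG hN hA hV hH hg hg' h1 h2 h3 h4 h5 h6
  · exact core hEVN hVPR hG hN hA.swap hV.swap hH.swap hg' hg h1 h2 h3 h4 h5 h6

end Pool.Agent.H75.ER2
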