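import Pool.Agent.H66.ER2.Lib

/-!
# MP_816b90_co, row ASL: the a-side lemma
-/

set_option autoImplicit false

namespace Pool.Agent.H75.ER2

open Pool.Agent.H48.ER Pool.Agent.H52.ER2 Pool.Agent.H66.ER2

theorem pf_ASL (hASD : T_ASD) (hAS4 : T_AS4) (hAS5 : T_AS5) : T_ASL := by
  intro V G l n m a1 c a2 b2 a3 b3 v D P Q hG hN hA hV
  rcases hASD V G l n m a1 c a2 b2 a3 b3 D P Q hG hA with h | h | h | ⟨i, j, g, g', R1, R2, h⟩
  · exact Or.inl h
  · exact Or.inr h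
  · exfalso
    have h1 : G.Adj v a1 → ¬ G.Adj c a1 := hV.nc a1 (Or.inl rfl)
    have h2 : G.Adj v a2 → ¬ G.Adj c a2 := hV.nc a2 (Or.inr (Or.inl hA.cy.ipP.left_mem))
    have h3 : G.Adj v a3 → ¬ G.Adj c a3 := hV.nc a3 (Or.inr (Or.inr hA.cy.ipQ.left_mem))
    rcases hV.ta with ⟨u1, u2⟩ | ⟨u1, u2⟩ | ⟨u1, u2⟩ <;>
      rcases h with ⟨w1, w2⟩ | ⟨w1, w2⟩ | ⟨w1, w2⟩ <;>
      first
        | exact h1 u1 w1
        | exact h2 u1 w1
        | exact h2 u1 w2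
        | exact h2 u2 w1
        | exact h2 u2 w2
        | exact h3 u2 w2
  · exfalso
    by_cases hg : g = a2
    · exact hAS5 V G l n m i j a1 c a2 b2 a3 b3 v g g' D P Q R1 R2 hG hN hA hV h hg
    · by_cases hg' : g' = a3
      · exact hAS5 V G l m n j i a1 c a3 b3 a2 b2 v g' g D Q P R2 R1 hG hN hA.swap hV.swap h.swap
          hg'
      · exact hAS4 V G l n m i j a1 c a2 b2 a3 b3 v g g' D P Q R1 R2 hG hN hA hV h hg hg'

end Pool.Agent.H75.ER2
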